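import Pool.Agent.HP25.NI.F
import Pool.Agent.N699.ST.Tra

/-!
# Primes `q` for which all `d_i q + a_i` are primes: all constants near the values of smoothly varying functions of
non-integral order at almost all integers with restricted digits, and all small slopes, at the same time

New: the decay of the characteristic functions and the moments for smoothly varying functions of non-integral order at
integers with random digits (`Pool.Agent.HP25.NI`), and the estimate with arbitrary coefficients for one shift which is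
close to a random real number with a bounded moment (`Pool.Agent.HP25.OS`). From the starting files: the passage from one
shift to several linear forms with all small slopes (`Pool.Agent.N699.ST.ws_all`), elementary facts on the growth of
smoothly varying functions (`Pool.Agent.N193.PS.Sv`).
-/

set_option autoImplicit false

namespace Pool.Agent.Results.MP_8bf9c2_nt.NonIntegralOrderConstants

open Finset Filter Topology

/-- `f` is smoothly varying of order `c`: it is infinitely differentiable and positive for large arguments, and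
`t ^ m f⁽ᵐ⁾(t) / f(t) → c (c - 1) ... (c - m + 1)` for every `m`. -/
def SmoothlyVarying (c : ℝ) (f : ℝ → ℝ) : Prop :=
  (∃ t₀ : ℝ, ∀ t > t₀, ContDiffAt ℝ ((⊤ : ℕ∞) : WithTop ℕ∞) f t ∧ 0 < f t) ∧
  ∀ m : ℕ, Tendsto (fun t => t ^ m * iteratedDeriv m f t / f t) atTop (𝓝 (∏ i ∈ range m, (c - i)))

lemma sv_of (c : ℝ) (hc : 0 < c) (hn : ∀ m : ℕ, c ≠ m) (f : ℝ → ℝ) (h : SmoothlyVarying c f) :
    Pool.Agent.N193.PS.SV c (fun m => iteratedDeriv m f) := by
  obtain ⟨⟨t₀, h0⟩, hlim⟩ := h
  refine ⟨hc, hn, ⟨t₀ + 1, fun m t ht => ?_⟩, ?_, fun m => ?_⟩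
  · have h1 := (h0 t (by linarith)).1
    have h2 : DifferentiableAt ℝ (iteratedDeriv m f) t := by
      rw [iteratedDeriv_eq_equiv_comp, LinearIsometryEquiv.comp_differentiableAt_iff]
      exact h1.differentiableAt_iteratedFDeriv (by exact_mod_cast WithTop.coe_lt_top m)
    show HasDerivAt (iteratedDeriv m f) (iteratedDeriv (m + 1) f t) t
    rw [iteratedDeriv_succ]
    exact h2.hasDerivAt
  · filter_upwards [eventually_gt_atTop t₀] with t ht
    simp only [iteratedDeriv_zero]
    exact (h0 t ht).2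
  · simpa only [iteratedDeriv_zero] using hlim m

/-- For every prime `p` there is an `r` such that `p` divides neither `r` nor any `d i * r + a i`. -/
def Admissible {s : ℕ} (d a : Fin s → ℕ) : Prop := ∀ p : ℕ, p.Prime → ∃ r : ℕ, ¬ p ∣ r ∧ ∀ i, ¬ p ∣ d i * r + a i

/-- The number of the residues `r < p` for which `p` divides `r * ∏ i, (d i * r + a i)`. -/
def nu {s : ℕ} (d a : Fin s → ℕ) (p : ℕ) : ℕ := ((range p).filter fun r => p ∣ r * ∏ i, (d i * r + a i)).card

/-- The partial product over the primes `p ≤ z` of the singular series. -/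
noncomputable def sing {s : ℕ} (d a : Fin s → ℕ) (z : ℕ) : ℝ :=
  ∏ p ∈ (Icc 1 z).filter Nat.Prime, (1 - (nu d a p : ℝ) / p) / (1 - 1 / (p : ℝ)) ^ (s + 1)

/-- The number of the primes `q ≤ x` for which all `d i * q + a i` are primes. -/
def count {s : ℕ} (d a : Fin s → ℕ) (x : ℕ) : ℕ := ((Icc 1 x).filter fun q => q.Prime ∧ ∀ i, (d i * q + a i).Prime).card

/-- The formula of Hardy and Littlewood for the primes `q ≤ x` with all `d i * q + a i` prime, where `log N` is the
approximate size of the logarithms of the primes: the singular series converges to some `S > 0`, the number of the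
solutions weighted with the von Mangoldt function is `S x`, with an error of at most `x / log ^ U N`, and the number of
the solutions is `S x / log ^ (s + 1) N`, with a relative error of at most `ε`. -/
def Formula {s : ℕ} (ε : ℝ) (U N x : ℕ) (d a : Fin s → ℕ) : Prop :=
  ∃ S : ℝ, 0 < S ∧ Filter.Tendsto (sing d a) Filter.atTop (nhds S) ∧
    |∑ n ∈ Icc 1 x, ArithmeticFunction.vonMangoldt n * ∏ i, ArithmeticFunction.vonMangoldt (d i * n + a i) - S * x| ≤
      x / Real.log N ^ U ∧
    |(count d a x : ℝ) - S * (x / Real.log N ^ (s + 1))| ≤ ε * (S * (x / Real.log N ^ (s + 1)))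

/-- The formula holds for the constants `a`, for all `j ≤ log ^ A N`, for ALL admissible slopes `1 ≤ d i ≤ j`, and for the
primes `q ≤ N / j`. -/
def AllSlopes {s : ℕ} (ε : ℝ) (A U N : ℕ) (a : Fin s → ℕ) : Prop :=
  ∀ (j : ℕ) (d : Fin s → ℕ), (j : ℝ) ≤ Real.log N ^ A → (∀ i, 1 ≤ d i ∧ d i ≤ j) → Admissible d a →
    Formula ε U N (N / j) d a

/-- The integers `n < b ^ k` whose digit number `j` in base `b` belongs to `D j`, for all `j < k`. -/
def digitSet (b : ℕ) (D : ℕ → Finset ℕ) (k : ℕ) : Finset ℕ :=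
  (range (b ^ k)).filter fun n => ∀ j < k, n / b ^ j % b ∈ D j

lemma allS_mono {s : ℕ} (ε : ℝ) (A U U' N : ℕ) (a : Fin s → ℕ) (hN : 3 ≤ N) (hU : U ≤ U')
    (h : Pool.Agent.N699.ST.AllS ε A U' N a) : AllSlopes ε A U N a := by
  intro j d hj hd had
  obtain ⟨S, hS, h1, h2, h3⟩ := h j d hj hd had
  refine ⟨S, hS, h1, h2.trans ?_, h3⟩
  have hL : 1 ≤ Real.log N := by
    rw [Real.le_log_iff_exp_le (by exact_mod_cast (by omega : 0 < N))]
    have : (3 : ℝ) ≤ N := by exact_mod_cast hN
    linarith [Real.exp_one_lt_d9]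
  exact div_le_div_of_nonneg_left (Nat.cast_nonneg _) (by positivity) (pow_le_pow_right₀ hL hU)

open Classical in
/-- Let `s ≥ 1`, bases `b i ≥ 2`, smoothly varying functions `f i` of the orders `c i > 0`, where the `c i` are not integers
(`i < s`), `T ≥ 1`, `A`, `U`, `W` and `ε > 0` be fixed. Let `N` be large, let the numbers `k i` of digits satisfy
`N / T ≤ f i (b i ^ k i) ≤ T N`, and let the integers of the sets `digitSet` have their `j`-th digit in an arbitrary set
`D i j` of at least two digits in base `b i`. Then for all vectors `(n 1, ..., n s)` of elements of these sets, with the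
exception of at most a proportion `1 / log ^ U N` of them, ALL the constants `a i ≥ 0` with `|a i - f i (n i)| ≤ log ^ W N`
have the following property: for all `j ≤ log ^ A N` and ALL slopes `1 ≤ d 1, ..., d s ≤ j` for which the system is
admissible, the formula of Hardy and Littlewood holds for the number of the primes `q ≤ N / j` for which all `d i * q + a i`
are primes. -/
theorem result (s : ℕ) (hs : 1 ≤ s) (b : Fin s → ℕ) (hb : ∀ i, 2 ≤ b i) (c : Fin s → ℝ) (hc : ∀ i, 0 < c i)
    (hn : ∀ i, ∀ m : ℕ, c i ≠ m) (f : Fin s → ℝ → ℝ) (hf : ∀ i, SmoothlyVarying (c i) (f i)) (T A U W : ℕ) (hT : 1 ≤ T)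
    (ε : ℝ) (hε : 0 < ε) :
    ∃ N₀ : ℕ, ∀ N, N₀ ≤ N → ∀ k : Fin s → ℕ, (∀ i, f i ((b i : ℝ) ^ k i) ≤ T * N ∧ N ≤ T * f i ((b i : ℝ) ^ k i)) →
      ∀ D : Fin s → ℕ → Finset ℕ, (∀ i, ∀ j < k i, D i j ⊆ range (b i) ∧ 2 ≤ (D i j).card) →
      (((Fintype.piFinset fun i => digitSet (b i) (D i) (k i)).filter fun n =>
        ¬ ∀ a : Fin s → ℕ, (∀ i, |(a i : ℝ) - f i (n i)| ≤ Real.log N ^ W) → AllSlopes ε A U N a).card : ℝ) ≤
        ((Fintype.piFinset fun i => digitSet (b i) (D i) (k i)).card : ℝ) / Real.log N ^ U := by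
  obtain ⟨q, C₀, F, T', W', U', hq, hC₀, hTT, hUU, N1, h1⟩ := Pool.Agent.HP25.NI.near_svs s b hb c
    (fun i m => iteratedDeriv m (f i)) (fun i => sv_of (c i) (hc i) (hn i) (f i) (hf i)) T W U hT
  simp only [iteratedDeriv_zero] at h1
  obtain ⟨V, hV⟩ : ∃ V, V = 2 * (U' + 1) + A * (s + 2) + 3 := ⟨_, rfl⟩
  obtain ⟨N2, h2⟩ := Pool.Agent.N699.ST.ws_all s hs (fun i => Pool.Agent.HP25.OS.NL (q i) (C₀ i) F T' W') (fun _ => 1)
    (fun _ => le_rfl) 0 U' A V hV ε hε (fun i => Pool.Agent.HP25.OS.oneLaw_NL (q i) (hq i) (C₀ i) (hC₀ i) F T' W' _ (hT.trans hTT))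
  refine ⟨N1 + N2 + 3, fun N hN k hk D hD => ?_⟩
  obtain ⟨-, h3⟩ := h1 N (by omega) (fun a => ¬ AllSlopes ε A U N a) (fun Ω p hL hp => by
    have h4 := h2 N (by omega) Ω p hL hp (fun _ => 0) (fun _ => Nat.zero_le _)
    refine le_trans (sum_le_sum ?_) h4
    intro v hv
    have hP0 : 0 ≤ ∏ i, p i (v i) := prod_nonneg fun j _ => hp j _ (Fintype.mem_piFinset.1 hv j)
    have e1 : (fun i => 0 + 1 * v i) = v := by funext i; omega
    rw [e1]
    by_cases h5 : AllSlopes ε A U N v
    · rw [if_neg (not_not.2 h5)]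
      split_ifs
      · exact le_rfl
      · exact hP0
    · have h6 : ¬ Pool.Agent.N699.ST.AllS ε A U' N v := fun h => h5 (allS_mono ε A U U' N v (by omega) hUU h)
      rw [if_pos h5, if_pos h6]) k hk D hD
  refine le_trans (Nat.cast_le.2 (card_le_card ?_)) h3
  intro n hn
  rw [mem_filter] at hn ⊢
  refine ⟨hn.1, ?_⟩
  obtain ⟨-, h4⟩ := hn
  push Not at h4
  exact h4

end Pool.Agent.Results.MP_8bf9c2_nt.NonIntegralOrderConstants
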