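import Pool.Agent.H40E9.XP.FinN

set_option autoImplicit false

/-!
# Exact positions of the primes in the orbits of `x ↦ a + d x`, along arithmetic progressions

The `j`-th iterate of `x ↦ a + d x` is `x ↦ a (1 + d + ... + d ^ (j - 1)) + d ^ j x`. For every pair `(a, d)` of the
question there is a nonempty set `T`, contained in `{1, ..., 106}`, such that for every `R` and `l` there are many
arithmetic progressions of `l` primes `q`, with very small differences, such that among the first `R` iterates of each of
these primes exactly those with the exponents in `T` are prime, and none of the `R` numbers before it in its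
orbit is prime. More generally `T` can be found in the set of the differences to its least element of every
set `E` of at least `45` exponents which satisfies the necessary local conditions.

Two of 45 linear forms are prime and all are free of small prime factors, in the right order of magnitude:
`Pool.Agent.X34.E.dhl45R` of the starting files; narrow progressions: `Pool.Agent.X34.E.transfer_nar` of the starting
files. The version without progressions is `Pool.Agent.Results.MP_8bf9c2_nt.ExactPositions` of the starting files.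
-/

namespace Pool.Agent.Results.MP_8bf9c2_nt.PatternsInProgressions

open Finset Filter

/-- `q` is a prime; for `1 ≤ j ≤ R` the `j`-th iterate of `x ↦ a + d x` maps `q` to a prime if and only if
`t + j ∈ T`, and it does not map any prime to `q`. -/
def Pattern (a d : ℤ) (t : ℕ) (T : Finset ℕ) (R : ℕ) (q : ℕ) : Prop :=
  q.Prime ∧ (∀ j ∈ Icc 1 R,
    ((∃ p : ℕ, p.Prime ∧ a * ∑ i ∈ range j, d ^ i + q * d ^ j = p) ↔ t + j ∈ T)) ∧
    ∀ j ∈ Icc 1 R, ∀ q' : ℕ, q'.Prime → a * ∑ i ∈ range j, d ^ i + q' * d ^ j ≠ q

/-- For every `l` there are `C` and arbitrarily large `N` with the following property: for some `D` between `1` and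
`log ^ C N` there are at least `N / log ^ C N` integers `q ≤ N` such that `q, q + D, ..., q + (l - 1) D` all have the
property `X`. -/
def Narrow (X : ℕ → Prop) : Prop := ∀ l : ℕ, ∃ C : ℕ, ∃ᶠ N : ℕ in atTop, ∃ D : ℕ, 1 ≤ D ∧
  (D : ℝ) ≤ Real.log N ^ C ∧ (N : ℝ) / Real.log N ^ C ≤
    ({q : ℕ | q ≤ N ∧ ∀ s < l, X (q + s * D)}.ncard : ℝ)

/-- **Exact positions along narrow progressions.** -/
theorem result (a d : ℤ) (hd : 1 ≤ d) (hg : Int.gcd a d = 1) (h2 : 2 ∣ a * d) (ha : a ≠ 0) :
    (∃ T : Finset ℕ, T.Nonempty ∧ T ⊆ Icc 1 106 ∧ ∀ R : ℕ, Narrow (Pattern a d 0 T R)) ∧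
    ∀ E : Finset ℕ, 45 ≤ E.card →
      (∀ p : ℕ, p.Prime → 3 ≤ p → p ≤ 43 → (p : ℤ) ∣ d - 1 → ¬ (p : ℤ) ∣ a →
        ∃ r : ℕ, ∀ e ∈ E, ¬ e ≡ r [MOD p]) →
      ∃ T ⊆ E, 2 ≤ T.card ∧ ∃ t ∈ T, (∀ e ∈ T, t ≤ e) ∧ ∀ R : ℕ, Narrow (Pattern a d t T R) :=
  Pool.Agent.H40E9.XP.N.fin a d hd hg h2 ha

end Pool.Agent.Results.MP_8bf9c2_nt.PatternsInProgressions
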