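import Pool.Agent.HP25.OS.F
import Pool.Agent.N699.ST.Tra

/-!
# Primes `q` for which all `d_i q + a_i` are primes: all constants near the values of real polynomials at almost all
integers with restricted digits, and all small slopes, at the same time

New: the Weyl inequality and the moments for real polynomials of every degree at integers with random digits
(`Pool.Agent.HP25.PD`), and the estimate with arbitrary coefficients for one shift which is close to a random real number
with a bounded moment (`Pool.Agent.HP25.OS`). From the starting files: the passage from one shift to several linear forms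
with all small slopes (`Pool.Agent.N699.ST.ws_all`).
-/

set_option autoImplicit false

namespace Pool.Agent.Results.MP_8bf9c2_nt.RealPolynomialConstants

open Finset

/-- For every prime `p` there is an `r` such that `p` divides neither `r` nor any `d i * r + a i`. -/
def Admissible {s : ℕ} (d a : Fin s → ℕ) : Prop := ∀ p : ℕ, p.Prime → ∃ r : ℕ, ¬ p ∣ r ∧ ∀ i, ¬ p ∣ d i * r + a i

/-- The number of the residues `r < p` for which `p` divides `r * ∏ i, (d i * r + a i)`. -/
def nu {s : ℕ} (d a : Fin s → ℕ) (p : ℕ) : ℕ := ((range p).filter fun r => p ∣ r * ∏ i, (d i * r + a i)).card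

/-- The partial product over the primes `p ≤ z` of the singular series. -/
noncomputable def sing {s : ℕ} (d a : Fin s → ℕ) (z : ℕ) : ℝ :=
  ∏ p ∈ (Icc 1 z).filter Nat.Prime, (1 - (nu d a p : ℝ) / p) / (1 - 1 / (p : ℝ)) ^ (s + 1)

/-- The number of the primes `q ≤ x` for which all `d i * q + a i` are primes. -/
def count {s : ℕ} (d a : Fin s → ℕ) (x : ℕ) : ℕ := ((Icc 1 x).filter fun q => q.Prime ∧ ∀ i, (d i * q + a i).Prime).card

/-- The formula of Hardy and Littlewood for the primes `q ≤ x` with all `d i * q + a i` prime, where `log N` is the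
approximate size of the logarithms of the primes: the singular series converges to some `S > 0`, the number of the
solutions weighted with the von Mangoldt function is `S x`, with an error of at most `x / log ^ U N`, and the number of
the solutions is `S x / log ^ (s + 1) N`, with a relative error of at most `ε`. -/
def Formula {s : ℕ} (ε : ℝ) (U N x : ℕ) (d a : Fin s → ℕ) : Prop :=
  ∃ S : ℝ, 0 < S ∧ Filter.Tendsto (sing d a) Filter.atTop (nhds S) ∧
    |∑ n ∈ Icc 1 x, ArithmeticFunction.vonMangoldt n * ∏ i, ArithmeticFunction.vonMangoldt (d i * n + a i) - S * x| ≤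
      x / Real.log N ^ U ∧
    |(count d a x : ℝ) - S * (x / Real.log N ^ (s + 1))| ≤ ε * (S * (x / Real.log N ^ (s + 1)))

/-- The formula holds for the constants `a`, for all `j ≤ log ^ A N`, for ALL admissible slopes `1 ≤ d i ≤ j`, and for the
primes `q ≤ N / j`. -/
def AllSlopes {s : ℕ} (ε : ℝ) (A U N : ℕ) (a : Fin s → ℕ) : Prop :=
  ∀ (j : ℕ) (d : Fin s → ℕ), (j : ℝ) ≤ Real.log N ^ A → (∀ i, 1 ≤ d i ∧ d i ≤ j) → Admissible d a →
    Formula ε U N (N / j) d a

/-- The integers `n < b ^ k` whose digit number `j` in base `b` belongs to `D j`, for all `j < k`. -/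
def digitSet (b : ℕ) (D : ℕ → Finset ℕ) (k : ℕ) : Finset ℕ :=
  (range (b ^ k)).filter fun n => ∀ j < k, n / b ^ j % b ∈ D j

lemma allS_mono {s : ℕ} (ε : ℝ) (A U U' N : ℕ) (a : Fin s → ℕ) (hN : 3 ≤ N) (hU : U ≤ U')
    (h : Pool.Agent.N699.ST.AllS ε A U' N a) : AllSlopes ε A U N a := by
  intro j d hj hd had
  obtain ⟨S, hS, h1, h2, h3⟩ := h j d hj hd had
  refine ⟨S, hS, h1, h2.trans ?_, h3⟩
  have hL : 1 ≤ Real.log N := by
    rw [Real.le_log_iff_exp_le (by exact_mod_cast (by omega : 0 < N))]
    have : (3 : ℝ) ≤ N := by exact_mod_cast hN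
    linarith [Real.exp_one_lt_d9]
  exact div_le_div_of_nonneg_left (Nat.cast_nonneg _) (by positivity) (pow_le_pow_right₀ hL hU)

open Classical in
/-- Let `s ≥ 1`, bases `b i ≥ 2`, degrees `m i ≥ 2` (`i < s`), `T ≥ 1`, `A`, `U`, `W` and `ε > 0` be fixed. Let `N` be large,
let the numbers `k i` of digits satisfy `N / T ≤ b i ^ (m i * k i) ≤ T N`, let the integers of the sets `digitSet` have
their `j`-th digit in an arbitrary set `D i j` of at least two digits in base `b i`, and let `f i` be real polynomials of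
degree `m i` with a leading coefficient between `1 / T` and `T` in absolute value and with
`- log ^ W N ≤ f i n ≤ T N` on this set. Then for all vectors `(n 1, ..., n s)` of elements of these sets, with the exception
of at most a proportion `1 / log ^ U N` of them, ALL the constants `a i ≥ 0` with `|a i - f i (n i)| ≤ log ^ W N` have the
following property: for all `j ≤ log ^ A N` and ALL slopes `1 ≤ d 1, ..., d s ≤ j` for which the system is admissible, the
formula of Hardy and Littlewood holds for the number of the primes `q ≤ N / j` for which all `d i * q + a i` are primes. -/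
theorem result (s : ℕ) (hs : 1 ≤ s) (b m : Fin s → ℕ) (hb : ∀ i, 2 ≤ b i) (hm : ∀ i, 2 ≤ m i) (T A U W : ℕ) (hT : 1 ≤ T)
    (ε : ℝ) (hε : 0 < ε) :
    ∃ N₀ : ℕ, ∀ N, N₀ ≤ N → ∀ k : Fin s → ℕ, (∀ i, b i ^ (m i * k i) ≤ T * N ∧ N ≤ T * b i ^ (m i * k i)) →
      ∀ D : Fin s → ℕ → Finset ℕ, (∀ i, ∀ j < k i, D i j ⊆ range (b i) ∧ 2 ≤ (D i j).card) →
      ∀ f : Fin s → Polynomial ℝ, (∀ i, (f i).natDegree = m i ∧ 1 / (T : ℝ) ≤ |(f i).leadingCoeff| ∧
        |(f i).leadingCoeff| ≤ T ∧ ∀ n ∈ digitSet (b i) (D i) (k i), -Real.log N ^ W ≤ (f i).eval (n : ℝ) ∧ (f i).eval (n : ℝ) ≤ T * N) →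
      (((Fintype.piFinset fun i => digitSet (b i) (D i) (k i)).filter fun n =>
        ¬ ∀ a : Fin s → ℕ, (∀ i, |(a i : ℝ) - (f i).eval (n i : ℝ)| ≤ Real.log N ^ W) → AllSlopes ε A U N a).card : ℝ) ≤
        ((Fintype.piFinset fun i => digitSet (b i) (D i) (k i)).card : ℝ) / Real.log N ^ U := by
  obtain ⟨e, he⟩ : ∃ e : Fin s → ℕ, ∀ i, m i = e i + 2 := ⟨fun i => m i - 2, fun i => (Nat.sub_add_cancel (hm i)).symm⟩
  obtain ⟨q, C₀, F, W', U', hq, hC₀, hUU, N1, h1⟩ := Pool.Agent.HP25.OS.near_vec s b e hb T W U hT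
  obtain ⟨V, hV⟩ : ∃ V, V = 2 * (U' + 1) + A * (s + 2) + 3 := ⟨_, rfl⟩
  obtain ⟨N2, h2⟩ := Pool.Agent.N699.ST.ws_all s hs (fun i => Pool.Agent.HP25.OS.NL (q i) (C₀ i) F T W') (fun _ => 1)
    (fun _ => le_rfl) 0 U' A V hV ε hε (fun i => Pool.Agent.HP25.OS.oneLaw_NL (q i) (hq i) (C₀ i) (hC₀ i) F T W' _ hT)
  refine ⟨N1 + N2 + 3, fun N hN k hk D hD f hf => ?_⟩
  have hTr : (1 : ℝ) ≤ T := by exact_mod_cast hT
  have h3 := h1 N (by omega) (fun a => ¬ AllSlopes ε A U N a) (fun Ω p hL hp => by
    have h4 := h2 N (by omega) Ω p hL hp (fun _ => 0) (fun _ => Nat.zero_le _)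
    refine le_trans (sum_le_sum ?_) h4
    intro v hv
    have hP0 : 0 ≤ ∏ i, p i (v i) := prod_nonneg fun j _ => hp j _ (Fintype.mem_piFinset.1 hv j)
    have e1 : (fun i => 0 + 1 * v i) = v := by funext i; omega
    rw [e1]
    by_cases h5 : AllSlopes ε A U N v
    · rw [if_neg (not_not.2 h5)]
      split_ifs
      · exact le_rfl
      · exact hP0
    · have h6 : ¬ Pool.Agent.N699.ST.AllS ε A U' N v := fun h => h5 (allS_mono ε A U U' N v (by omega) hUU h)
      rw [if_pos h5, if_pos h6]) k (fun i => by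
      have := hk i
      rwa [he i] at this) D hD (fun i => (f i).leadingCoeff) (fun i x => (f i).eval x) (fun i => by
      obtain ⟨g1, g2, g3, -⟩ := hf i
      refine ⟨g3, ?_, Pool.Agent.HP25.OS.pl_pol (e i) (f i) (by rw [g1, he i])⟩
      have : (T : ℝ) * (1 / T) ≤ T * |(f i).leadingCoeff| := mul_le_mul_of_nonneg_left g2 (by linarith)
      rwa [mul_one_div_cancel (by linarith)] at this) (fun i n hn => (hf i).2.2.2 n hn)
  refine le_trans (Nat.cast_le.2 (card_le_card ?_)) h3
  intro n hn
  rw [mem_filter] at hn ⊢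
  refine ⟨hn.1, ?_⟩
  obtain ⟨-, h4⟩ := hn
  push Not at h4
  exact h4

end Pool.Agent.Results.MP_8bf9c2_nt.RealPolynomialConstants
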