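import Pool.Agent.H40E9.K42.All
import Pool.Agent.H40E9.CM.Pairs

set_option autoImplicit false

/-!
# Every `M`-th iterate is a quotient of two good maps

The pair `(a, d)` stands for the map `x ↦ a + d x`. It is called good if for every length `l` there are many
narrow arithmetic progressions of `l` primes `q` for which `a + q d` is prime as well. Let `Z` be a set of commuting
maps which satisfy the hypotheses of the question, closed under composition, and not only `{id}`; for instance the
set of the iterates of a map `f`, or the set of ALL maps satisfying the hypotheses which commute with `f ≠ id`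
(translations, if `f` is one, and maps with the fixed point of `f` otherwise).

(A) There is an absolute constant `M` such that for all `h, w` in `Z` there are good maps `g₁, g₂` in `w Z` with
`h ^ M g₂ = g₁`. In particular for every pair `f = (a, d)` of the question and every multiple `k` of `M` there are
good iterates `f ^ i`, `f ^ j` with `i - j = k`; and every multiple of `2 M` is a difference of two numbers each of which is a
difference of two primes in infinitely many ways.

(B) If `Z` has no nonzero translations modulo three, there are `E ≤ 3` and a homomorphism `χ` of `Z` onto the group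
of `E` elements such that every `h` in `Z` with `χ h = 0`, for instance the `E`-th iterate of any element of `Z`, satisfies
`h g₃ = g₁ g₂` with good maps `g₁, g₂, g₃` in `w Z`. If `E ≠ 1` then for every finite set `F` of elements with
`χ = 0` there is `z` in `w Z` such that `z h` is good for every `h` in `F`.

Proof. By the coloured Maynard-Tao theorem along narrow progressions (`Pool.Agent.Y827.HN.patRD`, starting files) at
least `5 T / 18` of any `T` classes of linear forms are hit simultaneously. The limit of the `Z`-translates of the set of the good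
maps along an ultrafilter is therefore a subset `P` of the group of fractions of `Z` such that among any `T` elements of the
group there are `5 T / 18` whose quotients (later by earlier) are in `P`. (B) uses `T = 4`. For (A) let the elements be
`x ^ i`, `i < n`, in many rounds: two of the rounds have the same set `S` of exponents `i`, `|S| ≥ 5 n / 18`, and `P`
contains `x ^ (i - j)` for `i, j` in `S`. Since `5 / 18 > 1 / 4`, the number `42` is of the form `a + b - c - d` with
`a, b, c, d` in `S` (`Pool.Agent.H40E9.K42`; this is false below `1 / 4`), so `x ^ 42` is a quotient of two elements of `P`. The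
local conditions at the primes up to `T` hold for the `T !`-th powers, so `M = 42 T !`.

Pieces of the proof that `42` is in `2 S - 2 S`: helper70 (CNT, TWO, GOOD), helper61 (PAT), helper14 (FIN).
-/

namespace Pool.Agent.Results.MP_8bf9c2_nt.TwoGoodMaps

open Filter

/-- The pair `(a, d)` stands for the map `x ↦ a + d x`, and `comp g h` for the map `x ↦ g (h x)`. -/
def comp (g h : ℤ × ℤ) : ℤ × ℤ := (g.1 + g.2 * h.1, g.2 * h.2)

/-- The hypotheses of the question. -/
def Admissible (g : ℤ × ℤ) : Prop := 1 ≤ g.2 ∧ Int.gcd g.1 g.2 = 1 ∧ 2 ∣ g.1 * g.2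

/-- For every `l` there are `C` and arbitrarily large `N` with the following property: for some `D` between `1`
and `log ^ C N` there are at least `N / log ^ C N` integers `q ≤ N` such that `q, q + D, ..., q + (l - 1) D` are
primes which `g` maps to primes. -/
def Good (g : ℤ × ℤ) : Prop := ∀ l : ℕ, ∃ C : ℕ, ∃ᶠ N : ℕ in atTop, ∃ D : ℕ, 1 ≤ D ∧
  (D : ℝ) ≤ Real.log N ^ C ∧ (N : ℝ) / Real.log N ^ C ≤
    ({q : ℕ | q ≤ N ∧ ∀ t < l, (q + t * D).Prime ∧
      ∃ p : ℕ, p.Prime ∧ (p : ℤ) = g.1 + g.2 * ((q + t * D : ℕ) : ℤ)}.ncard : ℝ)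

/-- The `M`-th iterates of the maps in `Z` are quotients of two good maps in `w Z`, for every `w` in `Z`. -/
def Quotients (M : ℕ) (Z : Set (ℤ × ℤ)) : Prop :=
  ∀ h ∈ Z, ∀ w ∈ Z, ∃ g₁ ∈ Z, ∃ g₂ ∈ Z, Good (comp w g₁) ∧ Good (comp w g₂) ∧
    comp ((comp h)^[M] (0, 1)) (comp w g₂) = comp w g₁

/-- The structure of the good maps in `Z`. -/
def Structured (Z : Set (ℤ × ℤ)) : Prop :=
  ∃ E : ℕ, (E = 1 ∨ E = 2 ∨ E = 3) ∧ ∃ χ : ℤ × ℤ → ZMod E,
    (∀ g ∈ Z, ∀ h ∈ Z, χ (comp g h) = χ g + χ h) ∧
    (∀ e, ∃ g ∈ Z, χ g = e) ∧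
    (∀ h ∈ Z, χ h = 0 → ∀ w ∈ Z, ∃ g₁ ∈ Z, ∃ g₂ ∈ Z, ∃ g₃ ∈ Z,
      Good (comp w g₁) ∧ Good (comp w g₂) ∧ Good (comp w g₃) ∧
        comp h (comp w g₃) = comp (comp w g₁) (comp w g₂)) ∧
    (∀ h ∈ Z, ∀ w ∈ Z, ∃ g₁ ∈ Z, ∃ g₂ ∈ Z, ∃ g₃ ∈ Z,
      Good (comp w g₁) ∧ Good (comp w g₂) ∧ Good (comp w g₃) ∧
        comp ((comp h)^[E] (0, 1)) (comp w g₃) = comp (comp w g₁) (comp w g₂)) ∧
    (E ≠ 1 → ∀ F : Finset (ℤ × ℤ), (∀ h ∈ F, h ∈ Z ∧ χ h = 0) → ∀ w ∈ Z,
      ∃ z ∈ Z, ∀ h ∈ F, Good (comp (comp w z) h))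

/-- (A) an absolute `M` such that the `M`-th iterates are quotients of two good maps: for the set of all admissible maps
which commute with a given one, and for arbitrary sets `Z` of commuting admissible maps which are closed under composition;
(B) the structure with three factors. -/
theorem result :
    (∃ M : ℕ, 1 ≤ M ∧
      (∀ f : ℤ × ℤ, Admissible f → f ≠ (0, 1) → Quotients M {g | Admissible g ∧ comp f g = comp g f}) ∧
      ∀ Z : Set (ℤ × ℤ), (∀ g ∈ Z, Admissible g) → (∀ g ∈ Z, ∀ h ∈ Z, comp g h = comp h g) →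
        (∀ g ∈ Z, ∀ h ∈ Z, comp g h ∈ Z) → (∃ g ∈ Z, g ≠ (0, 1)) → Quotients M Z) ∧
    (∀ f : ℤ × ℤ, Admissible f → f ≠ (0, 1) →
      Structured {g | Admissible g ∧ (3 ∣ g.2 - 1 → 3 ∣ g.1) ∧ comp f g = comp g f}) ∧
    ∀ Z : Set (ℤ × ℤ), (∀ g ∈ Z, Admissible g ∧ (3 ∣ g.2 - 1 → 3 ∣ g.1)) →
      (∀ g ∈ Z, ∀ h ∈ Z, comp g h = comp h g) → (∀ g ∈ Z, ∀ h ∈ Z, comp g h ∈ Z) →
      (∃ g ∈ Z, g ≠ (0, 1)) → Structured Z := by
  obtain ⟨M, hM, h⟩ := Pool.Agent.H40E9.K42.pairs Pool.Agent.H40E9.K42.k42
  refine ⟨⟨M, hM, fun f hf hf1 => ?_, h⟩,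
    fun f hf hf1 => Pool.Agent.H40E9.CM.concl_f f hf hf1,
    fun Z hZ hcomm hcl hne => Pool.Agent.H40E9.CM.concl Z hZ hcomm hcl hne⟩
  obtain ⟨h1, h2, h3, h4⟩ := Pool.Agent.H40E9.K42.commuting f hf hf1
  exact h _ h1 h2 h3 h4

end Pool.Agent.Results.MP_8bf9c2_nt.TwoGoodMaps
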